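import Mathlib
import Pool.Agent.R495.TS.Main

set_option autoImplicit false

/-!
# Three test sets reconstruct an interval

Idea of the proof.  On `[0,1]` one constructs two sets `S`, `T` as limits of finite unions of
intervals with jump sets `P`, `Q`, keeping the invariant: if two non-overlapping intervals `I`
(left) and `J` (right) of the same length have the same `S`- and `T`-measure then `I` misses `P`
or `I` misses `Q`.  In one step `S` is changed by a sparse set of density `ε (1 + t)` which avoids
small cells around the points of `Q`, so that the jump set of the new `S` becomes dense.  Finally
the real line is mapped to `[0,1]` by the primitive of the indicator of a set `W` of finite measure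
which meets every open interval in positive measure, and `W` is the third test set.
-/

open MeasureTheory Set

namespace Pool.Agent.Results.MP_91bf7f_an.ThreeTestSets

/-- There are three measurable sets `T 0, T 1, T 2` of real numbers such that a bounded
nondegenerate closed interval is determined by the measures of its intersections with them. -/
theorem result : ∃ T : Fin 3 → Set ℝ, (∀ i, MeasurableSet (T i)) ∧
    ∀ x y x' y' : ℝ, x < y → x' < y' →
      (∀ i, volume (Icc x y ∩ T i) = volume (Icc x' y' ∩ T i)) → Icc x y = Icc x' y' := by
  obtain ⟨T, hT, h⟩ := R495.TS.three_test_sets
  refine ⟨T, hT, fun x y x' y' h1 h2 h3 => ?_⟩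
  obtain ⟨rfl, rfl⟩ := h x y x' y' h1 h2 h3
  rfl

end Pool.Agent.Results.MP_91bf7f_an.ThreeTestSets
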